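import Pool.Agent.Helper66_ML.Stmts

/-!
# Squad ML: row WDV
-/

set_option autoImplicit false

open scoped BigOperators

noncomputable section

namespace Pool.Agent.PP.ML.H32

open Pool.Agent.Helper51_AWC Pool.Agent.Helper79_WRA Pool.Agent.PP Pool.Agent.Helper98_CC
  Pool.Agent.PP.ML

/-- the chains with a given parity of the number of members -/
def XX (ℓ : ℕ) (G : Type) [Group G] (b : ℕ) : Type :=
  {d : Finset (Subgroup G) // d ∈ pChains ℓ G ∧ d.card % 2 = b}

variable {ℓ : ℕ} {G : Type} [Group G] {b : ℕ}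

theorem pChains_map (g : G) {d : Finset (Subgroup G)} (hd : d ∈ pChains ℓ G) :
    d.map ⟨conjS g, conjS_injective g⟩ ∈ pChains ℓ G := by
  refine ⟨?_, ?_⟩
  · intro D hD
    obtain ⟨E, hE, rfl⟩ := Finset.mem_map.1 hD
    refine ⟨?_, conjS_pgroup (hd.1 E hE).2⟩
    intro h
    apply (hd.1 E hE).1
    apply conjS_injective g
    show conjS g E = conjS g ⊥
    rw [show conjS g (⊥ : Subgroup G) = ⊥ from Subgroup.map_bot _]
    exact h
  · intro D hD E hE hne
    rw [Finset.mem_coe] at hD hE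
    obtain ⟨D', hD', rfl⟩ := Finset.mem_map.1 hD
    obtain ⟨E', hE', rfl⟩ := Finset.mem_map.1 hE
    rcases chain_total hd.2 hD' hE' with h | h
    · left; exact conjS_mono.2 h
    · right; exact conjS_mono.2 h

instance : MulAction G (XX ℓ G b) where
  smul g d := ⟨d.1.map ⟨conjS g, conjS_injective g⟩, pChains_map g d.2.1, by
    rw [Finset.card_map]; exact d.2.2⟩
  one_smul := by
    intro d
    apply Subtype.ext
    show d.1.map ⟨conjS 1, conjS_injective 1⟩ = d.1
    ext D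
    simp [conjS_one]
  mul_smul := by
    intro g h d
    apply Subtype.ext
    show d.1.map ⟨conjS (g * h), conjS_injective (g * h)⟩ =
      (d.1.map ⟨conjS h, conjS_injective h⟩).map ⟨conjS g, conjS_injective g⟩
    ext D
    simp [conjS_conjS]

theorem smul_val (g : G) (d : XX ℓ G b) :
    (g • d).1 = d.1.map ⟨conjS g, conjS_injective g⟩ := rfl

theorem smul_eq_iff [Finite G] (g : G) (d : XX ℓ G b) : g • d = d ↔ g ∈ stab d.1 := by
  rw [mem_stab]
  constructor
  · intro h D hD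
    have h1 : conjS g D ∈ d.1 := by
      have h2 : conjS g D ∈ (g • d).1 := by
        rw [smul_val, Finset.mem_map]
        exact ⟨D, hD, rfl⟩
      rwa [h] at h2
    rcases chain_total d.2.1.2 h1 hD with h2 | h2
    · exact Subgroup.eq_of_le_of_card_ge h2 (card_conjS g D).ge
    · exact (Subgroup.eq_of_le_of_card_ge h2 (card_conjS g D).le).symm
  · intro h
    apply Subtype.ext
    rw [smul_val]
    ext D
    rw [Finset.mem_map]
    constructor
    · rintro ⟨E, hE, rfl⟩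
      show conjS g E ∈ d.1
      rw [h E hE]; exact hE
    · intro hD
      exact ⟨D, hD, h D hD⟩

/-- the pairs with commutator `g` in the stabiliser of a chain -/
def Cm (ℓ : ℕ) (g : G) (d : Finset (Subgroup G)) (p : G × G) : Prop :=
  d ∈ pChains ℓ G ∧ p.1 ∈ stab d ∧ p.2 ∈ stab d ∧ p.1 * p.2 * p.1⁻¹ * p.2⁻¹ = g

/-- the bad pairs -/
def Bad (R : Subgroup G) (d : Finset (Subgroup G)) (p : G × G) : Prop :=
  ∃ U : Subgroup G, U ≠ ⊥ ∧ U ≤ R ∧ U ≤ stab d ∧ (∀ u ∈ U, p.1 * u * p.1⁻¹ ∈ U) ∧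
    ∀ u ∈ U, p.2 * u * p.2⁻¹ ∈ U

theorem inOm_iff [Finite G] (R : Subgroup G) (g : G) (w : XX ℓ G b × G × G) :
    InOm R g w ↔ Cm ℓ g w.1.1 w.2 ∧ ¬ Bad R w.1.1 w.2 := by
  constructor
  · intro h
    refine ⟨⟨w.1.2.1, (smul_eq_iff _ _).1 h.sx, (smul_eq_iff _ _).1 h.sy, h.cm⟩, ?_⟩
    rintro ⟨U, h1, h2, h3, h4, h5⟩
    exact h1 (h.tr U h2 (fun u hu => (smul_eq_iff _ _).2 (h3 hu)) h4 h5)
  · rintro ⟨⟨h1, h2, h3, h4⟩, h5⟩
    refine ⟨(smul_eq_iff _ _).2 h2, (smul_eq_iff _ _).2 h3, h4, ?_⟩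
    intro U h6 h7 h8 h9
    by_contra h10
    exact h5 ⟨U, h10, h6, fun u hu => (smul_eq_iff _ _).1 (h7 u hu), h8, h9⟩

open Classical in
theorem torusSum_eq [Fintype G] [Fintype (Finset (Subgroup G))] (g : G) :
    torusSum ℓ g = ∑ d : Finset (Subgroup G), ∑ p : G × G,
      if Cm ℓ g d p then (-1 : ℤ) ^ d.card else 0 := by
  unfold torusSum
  rw [finsum_eq_sum_of_fintype]
  apply Finset.sum_congr rfl
  intro d _
  rw [finsum_eq_if]
  split_ifs with h
  · have h1 : comm2 (stab d) g = (Finset.univ.filter (fun p : G × G => Cm ℓ g d p)).card := by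
      unfold comm2
      rw [Nat.card_eq_fintype_card, Fintype.card_subtype]
      congr 1
      ext p
      simp [Cm, h]
    rw [h1, ← Finset.sum_filter, Finset.sum_const, nsmul_eq_mul, mul_comm]
  · symm
    apply Finset.sum_eq_zero
    intro p _
    rw [if_neg]
    intro h1
    exact h h1.1

open Classical in
theorem good_card [Fintype G] [Fintype (Finset (Subgroup G))] (R : Subgroup G) (g : G) (b : ℕ) :
    {w : XX ℓ G b × G × G | InOm R g w}.ncard =
      (Finset.univ.filter (fun q : Finset (Subgroup G) × G × G =>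
        (Cm ℓ g q.1 q.2 ∧ ¬ Bad R q.1 q.2) ∧ q.1.card % 2 = b)).card := by
  have hinj : Function.Injective
      (fun w : XX ℓ G b × G × G => ((w.1.1, w.2) : Finset (Subgroup G) × G × G)) := by
    intro w w' h
    have h1 := congrArg Prod.fst h
    have h2 := congrArg Prod.snd h
    exact Prod.ext (Subtype.ext h1) h2
  rw [← Set.ncard_image_of_injective _ hinj, ← Set.ncard_coe_finset]
  congr 1
  ext q
  simp only [Set.mem_image, Set.mem_ofPred_eq, Finset.coe_filter, Finset.mem_univ, true_and]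
  constructor
  · rintro ⟨w, hw, rfl⟩
    exact ⟨(inOm_iff R g w).1 hw, w.1.2.2⟩
  · rintro ⟨h1, h2⟩
    exact ⟨(⟨q.1, h1.1.1, h2⟩, q.2), (inOm_iff R g _).2 h1, rfl⟩

theorem wdv (T1 : T1Stmt) (MOB : MobStmt) : WdvStmt := by
  classical
  intro ℓ _ G A _ _ _ R g ρ hR hc k hk
  have : Fintype G := Fintype.ofFinite G
  have : Fintype (Finset (Subgroup G)) := Fintype.ofFinite _
  have hT : ∀ b : ℕ, ((orderOf (ρ ⟨g ^ k, hk⟩) * Nat.card R : ℕ) : ℤ) ∣
      ((Finset.univ.filter (fun q : Finset (Subgroup G) × G × G =>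
        (Cm ℓ g q.1 q.2 ∧ ¬ Bad R q.1 q.2) ∧ q.1.card % 2 = b)).card : ℤ) := by
    intro b
    have : Finite (XX ℓ G b) := by
      unfold XX
      infer_instance
    have h1 := T1 G (XX ℓ G b) A R g ρ hc k hk
    rw [good_card] at h1
    exact_mod_cast h1
  rw [torusSum_eq]
  have hsplit : ∀ (d : Finset (Subgroup G)) (p : G × G),
      (if Cm ℓ g d p then (-1 : ℤ) ^ d.card else 0) =
        ((if (Cm ℓ g d p ∧ ¬ Bad R d p) ∧ d.card % 2 = 0 then 1 else 0) -
        (if (Cm ℓ g d p ∧ ¬ Bad R d p) ∧ d.card % 2 = 1 then 1 else 0)) +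
        (if Cm ℓ g d p ∧ Bad R d p then (-1 : ℤ) ^ d.card else 0) := by
    intro d p
    by_cases h1 : Cm ℓ g d p
    · by_cases h2 : Bad R d p
      · simp [h1, h2]
      · rcases Nat.mod_two_eq_zero_or_one d.card with h3 | h3
        · have h4 : (-1 : ℤ) ^ d.card = 1 := Even.neg_one_pow (Nat.even_iff.2 h3)
          simp [h1, h2, h3, h4]
        · have h4 : (-1 : ℤ) ^ d.card = -1 := Odd.neg_one_pow (Nat.odd_iff.2 h3)
          simp [h1, h2, h3, h4]
    · simp [h1]
  have hbad : ∑ d : Finset (Subgroup G), ∑ p : G × G,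
      (if Cm ℓ g d p ∧ Bad R d p then (-1 : ℤ) ^ d.card else 0) = 0 := by
    rw [Finset.sum_comm]
    apply Finset.sum_eq_zero
    intro p _
    by_cases hp : p.1 * p.2 * p.1⁻¹ * p.2⁻¹ = g
    · have h1 := MOB ℓ G R hR p.1 p.2
      rw [finsum_eq_sum_of_fintype] at h1
      refine Eq.trans ?_ h1
      apply Finset.sum_congr rfl
      intro d _
      rw [finsum_eq_if]
      apply if_congr _ rfl rfl
      constructor
      · rintro ⟨⟨h2, h3, h4, -⟩, h5⟩
        exact ⟨h2, h3, h4, h5⟩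
      · rintro ⟨h2, h3, h4, h5⟩
        exact ⟨⟨h2, h3, h4, hp⟩, h5⟩
    · apply Finset.sum_eq_zero
      intro d _
      rw [if_neg]
      intro h
      exact hp h.1.2.2.2
  have hcard : ∀ b : ℕ, ∑ d : Finset (Subgroup G), ∑ p : G × G,
      (if (Cm ℓ g d p ∧ ¬ Bad R d p) ∧ d.card % 2 = b then (1 : ℤ) else 0) =
      ((Finset.univ.filter (fun q : Finset (Subgroup G) × G × G =>
        (Cm ℓ g q.1 q.2 ∧ ¬ Bad R q.1 q.2) ∧ q.1.card % 2 = b)).card : ℤ) := by
    intro b
    rw [Finset.card_filter, Fintype.sum_prod_type]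
    push_cast
    rfl
  rw [Finset.sum_congr rfl fun d _ => Finset.sum_congr rfl fun p _ => hsplit d p]
  simp only [Finset.sum_add_distrib, Finset.sum_sub_distrib]
  rw [hbad, add_zero, hcard, hcard]
  exact dvd_sub (hT 0) (hT 1)

end Pool.Agent.PP.ML.H32
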